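import Pool.Agent.W2helper22.MG.Stm

set_option autoImplicit false

/-!
# Project MG, piece THRF: threshold functions of a list of functions without NOT gates
-/

namespace Pool.Agent.W2helper63.MG

open Pool.Agent.W2helper22.AL Pool.Agent.W2helper22.MG

/-- at least `k` of the functions of the list are true -/
def tf {I : Type} (l : List ((I → Bool) → Bool)) (k : ℕ) : (I → Bool) → Bool :=
  fun x => decide (k ≤ l.countP (fun f => f x))

lemma tf_nil_zero {I : Type} : tf ([] : List ((I → Bool) → Bool)) 0 = fun _ => true := by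
  funext x
  simp [tf]

lemma tf_nil_succ {I : Type} (k : ℕ) :
    tf ([] : List ((I → Bool) → Bool)) (k + 1) = fun _ => false := by
  funext x
  simp [tf]

lemma tf_zero {I : Type} (l : List ((I → Bool) → Bool)) : tf l 0 = fun _ => true := by
  funext x
  simp [tf]

lemma tf_big {I : Type} (l : List ((I → Bool) → Bool)) (k : ℕ) (h : l.length < k) :
    tf l k = fun _ => false := by
  funext x
  have h1 : l.countP (fun f => f x) ≤ l.length := List.countP_le_length
  simp only [tf, decide_eq_false_iff_not]
  omega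

lemma tf_cons {I : Type} (p : (I → Bool) → Bool) (l : List ((I → Bool) → Bool)) (j : ℕ) :
    tf (p :: l) (j + 1) = fun x => tf l (j + 1) x || (p x && tf l j x) := by
  funext x
  simp only [tf, List.countP_cons]
  cases h : p x
  · simp
  · simp only [Bool.true_and, if_true]
    rw [Bool.eq_iff_iff]
    simp only [decide_eq_true_eq, Bool.or_eq_true]
    omega

theorem tf_ok {I : Type} (s : ℕ) (F : Set (((I → Bool) → Bool) × ℕ))
    (l : List ((I → Bool) → Bool)) (hl : ∀ f ∈ l, (f, 0) ∈ F) (hA : Av 0 s (fun _ => 0) F) :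
    Av 0 (s + (2 * (l.length + 2) + 2) * (l.length + 1)) (fun _ => 0)
      (F ∪ {q | ∃ k, q = (tf l k, 0)}) := by
  induction l generalizing s with
  | nil =>
    have h1 := (hA.const true).const false
    refine h1.mono ?_ (fun _ => le_rfl) ?_
    · simp only [List.length_nil]
      omega
    · rintro q (hq | ⟨k, rfl⟩)
      · exact ⟨q.2, le_rfl, Or.inr (Or.inr hq)⟩
      · refine ⟨0, le_rfl, ?_⟩
        rcases k with _ | k
        · rw [tf_nil_zero]
          exact Or.inr (Or.inl rfl)
        · rw [tf_nil_succ]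
          exact Or.inl rfl
  | cons p l ih =>
    have hp : (p, 0) ∈ F := hl p List.mem_cons_self
    have h1 := ih s (fun f hf => hl f (List.mem_cons_of_mem _ hf)) hA
    have hin : ∀ k, (tf l k, 0) ∈ (F ∪ {q | ∃ k, q = (tf l k, 0)}) := fun k => Or.inr ⟨k, rfl⟩
    have h2 := Av.family (r := 2) (fun j => (tf (p :: l) (j + 1), 0)) (l.length + 1) h1
      (fun s' F' j _ hF' _ hA' => by
        have a1 := hA'.and (f := p) (g := tf l j) (l := 0) (hF' (Or.inl hp))
          (hF' (hin j)) le_rfl
        have a2 := a1.or (f := tf l (j + 1)) (g := fun x => p x && tf l j x) (l := 0)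
          (Or.inr (hF' (hin (j + 1)))) (Or.inl rfl) le_rfl
        refine a2.mono (by omega) (fun _ => le_rfl) ?_
        rintro q (rfl | hq)
        · refine ⟨0, le_rfl, ?_⟩
          dsimp only
          rw [tf_cons]
          exact Or.inl rfl
        · exact ⟨q.2, le_rfl, Or.inr (Or.inr hq)⟩)
    refine h2.mono ?_ (fun _ => le_rfl) ?_
    · simp only [List.length_cons]
      nlinarith
    · rintro q (hq | ⟨k, rfl⟩)
      · exact ⟨q.2, le_rfl, Or.inl (Or.inl hq)⟩
      · refine ⟨0, le_rfl, ?_⟩
        rcases k with _ | j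
        · rw [tf_zero, ← tf_zero l]
          exact Or.inl (hin 0)
        · rcases Nat.lt_or_ge j (l.length + 1) with hj | hj
          · exact Or.inr ⟨j, hj, rfl⟩
          · rw [tf_big _ _ (by simp only [List.length_cons]; omega),
              ← tf_big l (j + 1) (by omega)]
            exact Or.inl (hin (j + 1))

theorem thrf : P_THRF := by
  intro I s F fs hfs hM
  have h := tf_ok s {q : ((I → Bool) → Bool) × ℕ | q.1 ∈ F ∧ q.2 = 0} fs
    (fun f hf => ⟨hfs f hf, rfl⟩) hM
  refine h.mono le_rfl (fun _ => le_rfl) ?_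
  rintro ⟨f, i⟩ ⟨hf, hi⟩
  dsimp only at hf hi
  subst hi
  refine ⟨0, le_rfl, ?_⟩
  rcases hf with hf | ⟨k, rfl⟩
  · exact Or.inl ⟨hf, rfl⟩
  · exact Or.inr ⟨k, rfl⟩

end Pool.Agent.W2helper63.MG
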